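import Pool.Agent.helper23.HE.Final

/-! # MP_912900_an, Q1: horizontal engulfing implies full-dimensional engulfing

All definitions (group law of `ℍⁿ`, `H`-convexity, `H`-subdifferential, `H`-sections,
`ℍⁿ`-sections, `E(H,K)`, `E(ℍⁿ,K)`) are in `Pool.Agent.helper23.HE.Defs`; they are the ones of the
problem file. -/

namespace Pool.Agent.Results.MP_912900_an.HorizontalEngulfingIsFull

open Pool.Agent.helper23.HE

/-- For every `K > 1` there is `K' > 1`, depending only on `K`, such that for every `n ≥ 1` each
`H`-convex function `φ : ℍⁿ → ℝ` with the horizontal engulfing property `E(H, K)` has the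
full-dimensional engulfing property `E(ℍⁿ, K')`.  (No continuity of `φ` is assumed.) -/
theorem result : ∀ K : ℝ, 1 < K → ∃ K' : ℝ, 1 < K' ∧ ∀ n : ℕ, 1 ≤ n → ∀ φ : Heis n → ℝ,
    HConvex φ → EngulfH φ K → EngulfFull φ K' :=
  engulf

end Pool.Agent.Results.MP_912900_an.HorizontalEngulfingIsFull
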